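import Pool.Agent.Helper8_CR.BStmts

/-!
# Roots of the Bernstein-Sato polynomial of the stabilization
-/

set_option autoImplicit false

namespace Pool.Agent.Helper8_CR.H10

open MvPolynomial Pool.Agent.Helper6_Mono

variable {σ : Type}

theorem mulOp_mem' (p : MvPolynomial σ ℂ) : (fun _ => mulOp p : OpF σ) ∈ DS σ :=
  Algebra.subset_adjoin (Or.inl ⟨p, rfl⟩)

theorem dOp_mem' (i : σ) : (fun _ => dOp i : OpF σ) ∈ DS σ :=
  Algebra.subset_adjoin (Or.inr (Or.inl ⟨i, rfl⟩))

/-- families of scalars depending polynomially on `s` -/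
theorem scal_mem (c : Polynomial ℂ) :
    (fun n : ℕ => c.eval (n : ℂ) • (1 : Module.End ℂ (MvPolynomial σ ℂ)) : OpF σ) ∈ DS σ := by
  have hs : (fun n : ℕ => (n : ℂ) • (1 : Module.End ℂ (MvPolynomial σ ℂ)) : OpF σ) ∈ DS σ :=
    Algebra.subset_adjoin (Or.inr (Or.inr rfl))
  induction c using Polynomial.induction_on' with
  | add p q hp hq =>
    have h := Subalgebra.add_mem _ hp hq
    convert h using 1
    funext n
    simp [add_smul]
  | monomial m a =>
    have h := Subalgebra.smul_mem _ (Subalgebra.pow_mem _ hs m) a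
    convert h using 1
    funext n
    simp [smul_pow, smul_smul]

/-- polynomials in finitely many variables over `ℂ` without zeros are constant -/
theorem exists_zero [Finite σ] (f : MvPolynomial σ ℂ) (hf : ∀ c : ℂ, f ≠ C c) :
    ∃ p : σ → ℂ, eval p f = 0 := by
  have hJ : Ideal.span {f} ≠ ⊤ := by
    intro h
    rw [Ideal.span_singleton_eq_top] at h
    obtain ⟨c, _, hc⟩ := (MvPolynomial.isUnit_iff_eq_C_of_isReduced).1 h
    exact hf c hc
  obtain ⟨m, hm, hJm⟩ := Ideal.exists_le_maximal _ hJ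
  obtain ⟨q, hq⟩ := isMaximal_iff_eq_vanishingIdeal_singleton.1 hm
  refine ⟨q, ?_⟩
  have h2 := hJm (Ideal.mem_span_singleton_self f)
  rw [hq, mem_vanishingIdeal_singleton_iff, aeval_eq_eval] at h2
  exact h2

theorem pderiv_pow_succ (i : σ) (F : MvPolynomial σ ℂ) (n : ℕ) :
    pderiv i (F ^ (n + 1)) = ((n : ℂ) + 1) • (pderiv i F * F ^ n) := by
  rw [Derivation.leibniz_pow, Nat.add_sub_cancel, smul_eq_C_mul, C_add, C_1, map_natCast,
    smul_eq_mul, nsmul_eq_mul]
  push_cast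
  ring

/-- a point where a partial derivative does not vanish -/
theorem lbs_smooth (F : MvPolynomial σ ℂ) (c : Polynomial ℂ) (p : σ → ℂ) (i : σ)
    (h : eval p (pderiv i F) ≠ 0) : LBS F ((Polynomial.X + 1) * c) p := by
  refine ⟨pderiv i F, h, (fun n : ℕ => c.eval (n : ℂ) • (1 : Module.End ℂ (MvPolynomial σ ℂ))) *
    (fun _ => dOp i), Subalgebra.mul_mem _ (scal_mem c) (dOp_mem' i), fun n => ?_⟩
  change _ = c.eval (n : ℂ) • pderiv i (F ^ (n + 1))
  rw [pderiv_pow_succ, smul_smul, smul_eq_C_mul, Polynomial.eval_mul, Polynomial.eval_add,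
    Polynomial.eval_X, Polynomial.eval_one, C_mul, C_mul]
  ring

/-- a point where the polynomial does not vanish -/
theorem lbs_unit (F : MvPolynomial σ ℂ) (c : Polynomial ℂ) (p : σ → ℂ)
    (h : eval p F ≠ 0) : LBS F c p := by
  refine ⟨F, h, (fun n : ℕ => c.eval (n : ℂ) • (1 : Module.End ℂ (MvPolynomial σ ℂ))),
    scal_mem c, fun n => ?_⟩
  change _ = c.eval (n : ℂ) • (F ^ (n + 1))
  rw [smul_eq_C_mul, pow_succ]
  ring

theorem lbs_of_rbs [Fintype σ] (F : MvPolynomial σ ℂ) (c : Polynomial ℂ) (p : σ → ℂ)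
    (h : RBS F c p) : LBS F ((Polynomial.X + 1) * c) p := by
  obtain ⟨h, h0, D₀, hD₀, D, hD, h1⟩ := h
  refine ⟨h, h0, (fun n : ℕ => (Polynomial.X + 1 : Polynomial ℂ).eval (n : ℂ) •
      (1 : Module.End ℂ (MvPolynomial σ ℂ))) * D₀ + ∑ i, D i * (fun _ => dOp i),
    Subalgebra.add_mem _ (Subalgebra.mul_mem _ (scal_mem _) hD₀)
      (Subalgebra.sum_mem _ fun i _ => Subalgebra.mul_mem _ (hD i) (dOp_mem' i)), fun n => ?_⟩
  rw [Pi.add_apply, LinearMap.add_apply, Finset.sum_apply, LinearMap.sum_apply]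
  have h2 : ∀ i, (D i * (fun _ => dOp i) : OpF σ) n (F ^ (n + 1)) =
      C ((n : ℂ) + 1) * D i n (pderiv i F * F ^ n) := by
    intro i
    change D i n (pderiv i (F ^ (n + 1))) = _
    rw [pderiv_pow_succ, map_smul, smul_eq_C_mul]
  have h3 : ((fun n : ℕ => (Polynomial.X + 1 : Polynomial ℂ).eval (n : ℂ) •
      (1 : Module.End ℂ (MvPolynomial σ ℂ))) * D₀ : OpF σ) n (F ^ (n + 1)) =
      C ((n : ℂ) + 1) * D₀ n (F ^ (n + 1)) := by
    change (Polynomial.X + 1 : Polynomial ℂ).eval (n : ℂ) • D₀ n (F ^ (n + 1)) = _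
    rw [smul_eq_C_mul, Polynomial.eval_add, Polynomial.eval_X, Polynomial.eval_one]
  rw [Finset.sum_congr rfl fun i _ => h2 i, h3, ← Finset.mul_sum, ← mul_add, ← h1,
    Polynomial.eval_mul, Polynomial.eval_add, Polynomial.eval_X, Polynomial.eval_one, C_mul]
  ring

theorem pderiv_stab_u (f : MvPolynomial σ ℂ) (r : ℕ) (j : Fin r) :
    pderiv (Sum.inr (Sum.inl j)) (stab f r) = X (Sum.inr (Sum.inr j)) := by
  classical
  rw [stab, map_add, map_sum]
  have h1 : pderiv (Sum.inr (Sum.inl j) : SV σ r) (rename Sum.inl f) = 0 := by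
    refine pderiv_eq_zero_of_notMem_vars fun h => ?_
    have := vars_rename Sum.inl f h
    simp at this
  have h2 : ∀ i : Fin r, pderiv (Sum.inr (Sum.inl j) : SV σ r)
      (X (Sum.inr (Sum.inl i)) * X (Sum.inr (Sum.inr i)) : MvPolynomial (SV σ r) ℂ) =
      if i = j then X (Sum.inr (Sum.inr j)) else 0 := by
    intro i
    rw [Derivation.leibniz, pderiv_X_of_ne (by simp), smul_zero, zero_add, smul_eq_mul]
    by_cases h : i = j
    · subst h
      rw [pderiv_X_self, mul_one, if_pos rfl]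
    · rw [pderiv_X_of_ne (by simpa using h), mul_zero, if_neg h]
  rw [h1, zero_add, Finset.sum_congr rfl fun i _ => h2 i]
  simp

theorem pderiv_stab_v (f : MvPolynomial σ ℂ) (r : ℕ) (j : Fin r) :
    pderiv (Sum.inr (Sum.inr j)) (stab f r) = X (Sum.inr (Sum.inl j)) := by
  classical
  rw [stab, map_add, map_sum]
  have h1 : pderiv (Sum.inr (Sum.inr j) : SV σ r) (rename Sum.inl f) = 0 := by
    refine pderiv_eq_zero_of_notMem_vars fun h => ?_
    have := vars_rename Sum.inl f h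
    simp at this
  have h2 : ∀ i : Fin r, pderiv (Sum.inr (Sum.inr j) : SV σ r)
      (X (Sum.inr (Sum.inl i)) * X (Sum.inr (Sum.inr i)) : MvPolynomial (SV σ r) ℂ) =
      if i = j then X (Sum.inr (Sum.inl j)) else 0 := by
    intro i
    rw [Derivation.leibniz, pderiv_X_of_ne (j := Sum.inr (Sum.inl i)) (by simp), smul_zero,
      add_zero, smul_eq_mul]
    by_cases h : i = j
    · subst h
      rw [pderiv_X_self, mul_one, if_pos rfl]
    · rw [pderiv_X_of_ne (by simpa using h), mul_zero, if_neg h]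
  rw [h1, zero_add, Finset.sum_congr rfl fun i _ => h2 i]
  simp

theorem eval_stab (f : MvPolynomial σ ℂ) (r : ℕ) (P : SV σ r → ℂ)
    (hP : ∀ j, P (Sum.inr j) = 0) : eval P (stab f r) = eval (fun i => P (Sum.inl i)) f := by
  rw [stab, map_add, map_sum, eval_rename]
  simp only [map_mul, eval_X, hP, mul_zero, Finset.sum_const_zero, add_zero]
  rfl

/-- MODULE BFIN -/
theorem bfin (hL : LbfStmt) (hE : EvmStmt) (hT : TsbStmt) : BfinStmt := by
  intro σ _ f hf
  have hf0 : f ≠ 0 := by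
    have := hf 0
    rwa [C_0] at this
  obtain ⟨p, hp⟩ := exists_zero f hf
  have hb1 : (bfun f).eval (-1) = 0 := (hE σ f (bfun f) p hf0 hp ((hL σ f).1 p)).1
  refine ⟨hb1, fun r β hβ => ?_⟩
  obtain ⟨c, hc⟩ : ∃ c, bfun f = (Polynomial.X + 1) * c := by
    have := Polynomial.dvd_iff_isRoot.2 hb1
    rwa [map_neg, map_one, sub_neg_eq_add] at this
  have hdvd : bfun (stab f r) ∣
      (Polynomial.X + 1) * c.comp (Polynomial.X + Polynomial.C (r : ℂ)) := by
    refine (hL _ (stab f r)).2 _ fun P => ?_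
    by_cases h1 : ∃ j, P (Sum.inr j) ≠ 0
    · obtain ⟨j | j, hj⟩ := h1
      · refine lbs_smooth _ _ _ (Sum.inr (Sum.inr j)) ?_
        rwa [pderiv_stab_v, eval_X]
      · refine lbs_smooth _ _ _ (Sum.inr (Sum.inl j)) ?_
        rwa [pderiv_stab_u, eval_X]
    · have hP : ∀ j, P (Sum.inr j) = 0 := by
        intro j
        by_contra h
        exact h1 ⟨j, h⟩
      by_cases h2 : eval (fun i => P (Sum.inl i)) f = 0
      · refine lbs_of_rbs _ _ _ (hT σ f c r P ?_ hP)
        exact (hE σ f (bfun f) _ hf0 h2 ((hL σ f).1 _)).2 c hc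
      · refine lbs_unit _ _ _ ?_
        rwa [eval_stab f r P hP]
  obtain ⟨d, hd⟩ := hdvd
  have h3 : ((Polynomial.X + 1) * c.comp (Polynomial.X + Polynomial.C (r : ℂ))).eval β = 0 := by
    rw [hd, Polynomial.eval_mul, hβ, zero_mul]
  rw [Polynomial.eval_mul, Polynomial.eval_add, Polynomial.eval_X, Polynomial.eval_one,
    Polynomial.eval_comp, Polynomial.eval_add, Polynomial.eval_X, Polynomial.eval_C] at h3
  rcases mul_eq_zero.1 h3 with h3 | h3
  · exact Or.inl (eq_neg_of_add_eq_zero_left h3)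
  · right
    rw [hc, Polynomial.eval_mul, h3, mul_zero]

end Pool.Agent.Helper8_CR.H10
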