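import Pool.Agent.Helper10_CR.Ops

/-!
# The value at `s = -1` and the Bernstein-Sato polynomial of the stabilization
-/

set_option autoImplicit false

namespace Pool.Agent.Helper8_CR.H10

open MvPolynomial Pool.Agent.Helper6_Mono

variable {σ : Type}

theorem pw_neg_one (F : MvPolynomial σ ℂ) (w : List σ) (hw : w ≠ []) : pw F w (-1) = 0 := by
  induction w with
  | nil => exact absurd rfl hw
  | cons i w ih =>
    rw [pw]
    by_cases h : w = []
    · subst h
      simp [pw]
    · rw [ih h]
      simp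

/-- the part of order zero at `s = -1` -/
noncomputable def a0 : List (Polynomial (MvPolynomial σ ℂ) × List σ) → MvPolynomial σ ℂ
  | [] => 0
  | aw :: P => (if aw.2 = [] then aw.1.eval (-1) else 0) + a0 P

/-- the identity at `s = -1` -/
theorem at_neg_one {F : MvPolynomial σ ℂ} (hF0 : F ≠ 0) {b : Polynomial ℂ} {h : MvPolynomial σ ℂ}
    {P : List (Polynomial (MvPolynomial σ ℂ) × List σ)}
    (hP : ∀ n : ℕ, C (b.eval (n : ℂ)) * h * F ^ n =
        (P.map fun aw => aw.1.eval (n : MvPolynomial σ ℂ) * dWord aw.2 (F ^ (n + 1))).sum) :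
    C (b.eval (-1)) * h = F * a0 P := by
  obtain ⟨N, hN⟩ : ∃ N, ∀ aw ∈ P, aw.2.length ≤ N := by
    refine ⟨(P.map fun aw => aw.2.length).sum, fun aw haw => ?_⟩
    exact List.single_le_sum (by simp) _ (List.mem_map_of_mem haw)
  have hF : IsPolyFun (fun z => C (b.eval z) * h * F ^ N) :=
    ((IsPolyFun.ofC b).mul (.const h)).mul (.const _)
  have hG : IsPolyFun (fun z => (P.map fun aw => aw.1.eval (C z) *
      (F ^ (N + 1 - aw.2.length) * pw F aw.2 z)).sum) :=
    IsPolyFun.list_sum P (fun aw z => aw.1.eval (C z) *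
      (F ^ (N + 1 - aw.2.length) * pw F aw.2 z)) fun aw =>
      IsPolyFun.mul ⟨aw.1, fun z => rfl⟩ (.mul (.const _) (pw_isPolyFun F aw.2))
  have hpoly := hF.eq_of_nat hG N (by
    intro n hn
    have h1 := hP n
    have h3 : F ^ (n - N) * (C (b.eval (n : ℂ)) * h * F ^ N) =
        C (b.eval (n : ℂ)) * h * F ^ n := by
      rw [mul_left_comm, ← pow_add, Nat.sub_add_cancel hn]
    refine mul_left_cancel₀ (pow_ne_zero (n - N) hF0) ?_
    rw [← List.sum_map_mul_left, h3, h1]
    congr 1
    refine List.map_congr_left fun aw haw => ?_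
    have h4 := hN aw haw
    rw [dWord_pow F aw.2 n (by omega), show n + 1 - aw.2.length =
      (n - N) + (N + 1 - aw.2.length) by omega, pow_add]
    simp only [map_natCast]
    ring) (-1)
  refine mul_left_cancel₀ (pow_ne_zero N hF0) ?_
  rw [mul_comm, hpoly]
  clear hpoly hP hF hG hN
  induction P with
  | nil => simp [a0]
  | cons aw P ih =>
    rw [List.map_cons, List.sum_cons, ih, a0]
    by_cases hw : aw.2 = []
    · rw [hw, if_pos rfl]
      have : (C (-1 : ℂ) : MvPolynomial σ ℂ) = -1 := by rw [C_neg, C_1]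
      rw [this]
      simp only [List.length_nil, Nat.sub_zero, pw, pow_succ]
      ring
    · rw [pw_neg_one F aw.2 hw, if_neg hw]
      ring

theorem dW_append (w w' : List σ) : dW (w ++ w') = dW w * dW w' := by
  simp [dW]

/-- the operator at `s = -1` in the form `a₀ + ∑ Q_i ∂_i` -/
theorem split_neg_one [Fintype σ] (P : List (Polynomial (MvPolynomial σ ℂ) × List σ)) :
    ∃ D : σ → OpF σ, (∀ i, D i ∈ DS σ) ∧ ∀ (n : ℕ) (q : MvPolynomial σ ℂ),
      (P.map fun aw => aw.1.eval (-1) * dWord aw.2 q).sum =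
        a0 P * q + ∑ i, D i n (pderiv i q) := by
  classical
  induction P with
  | nil => exact ⟨0, fun i => Subalgebra.zero_mem _, fun n q => by simp [a0]⟩
  | cons aw P ih =>
    obtain ⟨D, hD, h1⟩ := ih
    rcases List.eq_nil_or_concat aw.2 with hw | ⟨w, i, hw⟩
    · refine ⟨D, hD, fun n q => ?_⟩
      rw [List.map_cons, List.sum_cons, h1 n q, a0, if_pos hw, hw]
      simp only [dWord, List.foldr_nil]
      ring
    · refine ⟨Function.update D i (D i + (fun _ => mulOp (aw.1.eval (-1)) : OpF σ) *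
        (fun _ => dW w : OpF σ)), fun j => ?_, fun n q => ?_⟩
      · by_cases hj : j = i
        · subst hj
          rw [Function.update_self]
          exact Subalgebra.add_mem _ (hD _) (Subalgebra.mul_mem _ (mulOp_mem _) (dW_mem _))
        · rw [Function.update_of_ne hj]
          exact hD j
      · have hne : aw.2 ≠ [] := by rw [hw]; simp
        have h2 : dWord aw.2 q = dW w (pderiv i q) := by
          rw [← dW_apply, hw, List.concat_eq_append, dW_append, Module.End.mul_apply]
          simp [dW]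
        rw [List.map_cons, List.sum_cons, h1 n q, a0, if_neg hne, h2]
        have h3 : ∑ j, Function.update D i (D i + (fun _ => mulOp (aw.1.eval (-1)) : OpF σ) *
            (fun _ => dW w : OpF σ)) j n (pderiv j q) =
            (aw.1.eval (-1) * dW w (pderiv i q)) + ∑ j, D j n (pderiv j q) := by
          rw [← Finset.add_sum_erase _ _ (Finset.mem_univ i),
            ← Finset.add_sum_erase _ (fun j => D j n (pderiv j q)) (Finset.mem_univ i),
            Function.update_self, ← add_assoc]
          refine congrArg₂ (· + ·) ?_ ?_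
          · change D i n (pderiv i q) + aw.1.eval (-1) * dW w (pderiv i q) = _
            ring
          · refine Finset.sum_congr rfl fun j hj => ?_
            rw [Function.update_of_ne (Finset.ne_of_mem_erase hj)]
        rw [h3]
        ring

/-- division by `s + 1` -/
theorem exists_quot (a : Polynomial (MvPolynomial σ ℂ)) : ∃ a' : Polynomial (MvPolynomial σ ℂ),
    ∀ n : ℕ, a.eval (n : MvPolynomial σ ℂ) =
      a.eval (-1) + ((n : MvPolynomial σ ℂ) + 1) * a'.eval (n : MvPolynomial σ ℂ) := by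
  obtain ⟨a', ha'⟩ := Polynomial.X_sub_C_dvd_sub_C_eval (p := a) (a := -1)
  refine ⟨a', fun n => ?_⟩
  have := congrArg (Polynomial.eval (n : MvPolynomial σ ℂ)) ha'
  simp only [Polynomial.eval_sub, Polynomial.eval_C, Polynomial.eval_mul, Polynomial.eval_X,
    sub_neg_eq_add] at this
  rw [← this]
  ring

theorem exists_quot_list (P : List (Polynomial (MvPolynomial σ ℂ) × List σ)) :
    ∃ D₀ ∈ DS σ, ∀ (n : ℕ) (q : MvPolynomial σ ℂ), ev P n q =
      (P.map fun aw => aw.1.eval (-1) * dWord aw.2 q).sum +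
        ((n : MvPolynomial σ ℂ) + 1) * D₀ n q := by
  induction P with
  | nil => exact ⟨0, Subalgebra.zero_mem _, fun n q => by simp [ev]⟩
  | cons aw P ih =>
    obtain ⟨D₀, hD₀, h1⟩ := ih
    obtain ⟨a', ha'⟩ := exists_quot aw.1
    refine ⟨(fun n : ℕ => mulOp (a'.eval (n : MvPolynomial σ ℂ)) * dW aw.2 : OpF σ) + D₀,
      Subalgebra.add_mem _ (term_mem (a', aw.2)) hD₀, fun n q => ?_⟩
    rw [ev_cons, Pi.add_apply, LinearMap.add_apply, h1, List.map_cons, List.sum_cons,
      Pi.add_apply, LinearMap.add_apply, Module.End.mul_apply, dW_apply, Module.End.mul_apply,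
      dW_apply]
    change aw.1.eval (n : MvPolynomial σ ℂ) * dWord aw.2 q + _ =
      _ + ((n : MvPolynomial σ ℂ) + 1) *
        (a'.eval (n : MvPolynomial σ ℂ) * dWord aw.2 q + D₀ n q)
    rw [ha' n]
    ring

/-- MODULE EVM -/
theorem evm : EvmStmt := by
  intro σ _ F b p hF0 hFp hb
  obtain ⟨h, h0, D, hD, h1⟩ := hb
  obtain ⟨P, rfl⟩ := rep_of_mem hD
  have h2 : C (b.eval (-1)) * h = F * a0 P :=
    at_neg_one hF0 fun n => by rw [h1, ev_apply]
  have h3 : b.eval (-1) = 0 := by
    have := congrArg (eval p) h2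
    rw [map_mul, map_mul, eval_C, hFp, zero_mul] at this
    exact (mul_eq_zero.1 this).resolve_right h0
  have h4 : a0 P = 0 := by
    rw [h3, C_0, zero_mul] at h2
    exact (mul_eq_zero.1 h2.symm).resolve_left hF0
  refine ⟨h3, fun c hc => ?_⟩
  obtain ⟨D₀, hD₀, h5⟩ := exists_quot_list P
  obtain ⟨D, hD, h6⟩ := split_neg_one P
  refine ⟨h, h0, D₀, hD₀, D, hD, fun n => ?_⟩
  have hn : (C ((n : ℂ) + 1) : MvPolynomial σ ℂ) ≠ 0 := by
    rw [Ne, C_eq_zero]
    exact Nat.cast_add_one_ne_zero n
  refine mul_left_cancel₀ hn ?_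
  have h7 : C ((n : ℂ) + 1) * (C (c.eval (n : ℂ)) * h * F ^ n) =
      C (b.eval (n : ℂ)) * h * F ^ n := by
    rw [hc, Polynomial.eval_mul, Polynomial.eval_add, Polynomial.eval_X, Polynomial.eval_one,
      C_mul]
    ring
  rw [h7, h1, h5, h6 n, h4, zero_mul, zero_add, mul_add, add_comm]
  refine congrArg₂ (· + ·) ?_ ?_
  · rw [C_add, C_1, map_natCast]
  · rw [Finset.mul_sum]
    refine Finset.sum_congr rfl fun i _ => ?_
    have h8 : pderiv i (F ^ (n + 1)) = ((n : ℂ) + 1) • (pderiv i F * F ^ n) := by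
      rw [Derivation.leibniz_pow, Nat.add_sub_cancel, smul_eq_C_mul, C_add, C_1, map_natCast,
        smul_eq_mul, nsmul_eq_mul]
      push_cast
      ring
    rw [h8, map_smul, smul_eq_C_mul]

end Pool.Agent.Helper8_CR.H10
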