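import Pool.Agent.Helper8_CR.BStmts

/-!
# The ring `D[s]` and lists; consequences for the Bernstein-Sato polynomial
-/

set_option autoImplicit false

namespace Pool.Agent.Helper8_CR.H10

open MvPolynomial Pool.Agent.Helper6_Mono

variable {σ : Type}

/-- the iterated partial derivative as an operator -/
noncomputable def dW (w : List σ) : Module.End ℂ (MvPolynomial σ ℂ) :=
  (w.map fun i => dOp i).prod

theorem dW_apply (w : List σ) (q : MvPolynomial σ ℂ) : dW w q = dWord w q := by
  induction w with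
  | nil => simp [dW, dWord]
  | cons i w ih =>
    have h : dW (i :: w) = dOp i * dW w := by simp [dW]
    rw [h, Module.End.mul_apply, ih]
    rfl

/-- the family given by a list -/
noncomputable def ev (P : List (Polynomial (MvPolynomial σ ℂ) × List σ)) : OpF σ :=
  fun n => (P.map fun aw => mulOp (aw.1.eval (n : MvPolynomial σ ℂ)) * dW aw.2).sum

theorem ev_nil : ev ([] : List (Polynomial (MvPolynomial σ ℂ) × List σ)) = 0 := by
  funext n; simp [ev]

theorem ev_cons (aw : Polynomial (MvPolynomial σ ℂ) × List σ)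
    (P : List (Polynomial (MvPolynomial σ ℂ) × List σ)) :
    ev (aw :: P) = (fun n => mulOp (aw.1.eval (n : MvPolynomial σ ℂ)) * dW aw.2 : OpF σ) +
      ev P := by
  funext n; simp [ev]

theorem ev_append (P Q : List (Polynomial (MvPolynomial σ ℂ) × List σ)) :
    ev (P ++ Q) = ev P + ev Q := by
  funext n; simp [ev]

theorem ev_apply (P : List (Polynomial (MvPolynomial σ ℂ) × List σ)) (n : ℕ)
    (q : MvPolynomial σ ℂ) : ev P n q =
      (P.map fun aw => aw.1.eval (n : MvPolynomial σ ℂ) * dWord aw.2 q).sum := by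
  induction P with
  | nil => simp [ev]
  | cons aw P ih =>
    rw [ev_cons, Pi.add_apply, LinearMap.add_apply, ih, List.map_cons, List.sum_cons,
      Module.End.mul_apply, dW_apply]
    rfl

/-- families given by lists -/
def Rep (D : OpF σ) : Prop := ∃ P, D = ev P

theorem Rep.zero : Rep (0 : OpF σ) := ⟨[], ev_nil.symm⟩

theorem Rep.add {D E : OpF σ} (hD : Rep D) (hE : Rep E) : Rep (D + E) := by
  obtain ⟨P, rfl⟩ := hD
  obtain ⟨Q, rfl⟩ := hE
  exact ⟨P ++ Q, (ev_append P Q).symm⟩

theorem mulOp_mul (p q : MvPolynomial σ ℂ) : mulOp (p * q) = mulOp p * mulOp q := by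
  refine LinearMap.ext fun x => ?_
  simp [mulOp]

theorem dOp_mulOp (i : σ) (p : MvPolynomial σ ℂ) :
    dOp i * mulOp p = mulOp (pderiv i p) + mulOp p * dOp i := by
  refine LinearMap.ext fun x => ?_
  simp only [mulOp, dOp, Module.End.mul_apply, LinearMap.add_apply, LinearMap.mulLeft_apply,
    Derivation.coeFn_coe, Derivation.leibniz, smul_eq_mul]
  ring

theorem Rep.left (a : Polynomial (MvPolynomial σ ℂ)) {D : OpF σ} (hD : Rep D) :
    Rep (fun n => mulOp (a.eval (n : MvPolynomial σ ℂ)) * D n) := by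
  obtain ⟨P, rfl⟩ := hD
  induction P with
  | nil =>
    refine ⟨[], ?_⟩
    rw [ev_nil]
    funext n
    simp
  | cons bw P ih =>
    obtain ⟨Q, hQ⟩ := ih
    refine ⟨(a * bw.1, bw.2) :: Q, ?_⟩
    rw [ev_cons, ev_cons, ← hQ]
    funext n
    simp only [Pi.add_apply, mul_add, Polynomial.eval_mul, mulOp_mul, mul_assoc]

/-- the derivative of the coefficients -/
noncomputable def dc (i : σ) (a : Polynomial (MvPolynomial σ ℂ)) :
    Polynomial (MvPolynomial σ ℂ) :=
  a.sum fun n c => Polynomial.monomial n (pderiv i c)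

theorem dc_eval (i : σ) (a : Polynomial (MvPolynomial σ ℂ)) (n : ℕ) :
    pderiv i (a.eval (n : MvPolynomial σ ℂ)) = (dc i a).eval (n : MvPolynomial σ ℂ) := by
  rw [Polynomial.eval_eq_sum, Polynomial.sum, map_sum, dc, Polynomial.sum,
    Polynomial.eval_finsetSum]
  refine Finset.sum_congr rfl fun m _ => ?_
  rw [Derivation.leibniz, Polynomial.eval_monomial, ← Nat.cast_pow, Derivation.map_natCast,
    smul_zero, zero_add, smul_eq_mul, mul_comm]

theorem Rep.deriv (i : σ) {D : OpF σ} (hD : Rep D) : Rep (fun n => dOp i * D n) := by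
  obtain ⟨P, rfl⟩ := hD
  induction P with
  | nil =>
    refine ⟨[], ?_⟩
    rw [ev_nil]
    funext n
    simp
  | cons aw P ih =>
    obtain ⟨Q, hQ⟩ := ih
    refine ⟨(dc i aw.1, aw.2) :: (aw.1, i :: aw.2) :: Q, ?_⟩
    rw [ev_cons, ev_cons, ev_cons, ← hQ]
    funext n
    have h : dW (i :: aw.2) = dOp i * dW aw.2 := by simp [dW]
    simp only [Pi.add_apply, mul_add, ← dc_eval, h]
    rw [← mul_assoc, dOp_mulOp, add_mul, mul_assoc, add_assoc]

theorem Rep.dW (w : List σ) {D : OpF σ} (hD : Rep D) : Rep (fun n => dW w * D n) := by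
  induction w with
  | nil => simpa [H10.dW] using hD
  | cons i w ih =>
    have := ih.deriv i
    have h : H10.dW (i :: w) = dOp i * H10.dW w := by simp [H10.dW]
    simpa only [h, mul_assoc] using this

theorem Rep.mul {D E : OpF σ} (hD : Rep D) (hE : Rep E) : Rep (D * E) := by
  obtain ⟨P, rfl⟩ := hD
  induction P with
  | nil => rw [ev_nil, zero_mul]; exact .zero
  | cons aw P ih =>
    rw [ev_cons, add_mul]
    refine Rep.add ?_ ih
    have := (hE.dW aw.2).left aw.1
    simp only [← mul_assoc] at this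
    exact this

theorem rep_of_mem {D : OpF σ} (hD : D ∈ DS σ) : Rep D := by
  induction hD using Algebra.adjoin_induction with
  | mem D hD =>
    rcases hD with ⟨p, rfl⟩ | ⟨i, rfl⟩ | rfl
    · refine ⟨[(Polynomial.C p, [])], ?_⟩
      funext n
      simp [ev, dW]
    · refine ⟨[(1, [i])], ?_⟩
      funext n
      refine LinearMap.ext fun x => ?_
      simp [ev, dW]
    · refine ⟨[(Polynomial.X, [])], ?_⟩
      funext n
      refine LinearMap.ext fun x => ?_
      simp [ev, dW, Algebra.smul_def]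
  | algebraMap c =>
    refine ⟨[(Polynomial.C (C c), [])], ?_⟩
    funext n
    refine LinearMap.ext fun x => ?_
    simp [ev, dW, Pi.algebraMap_apply, Module.algebraMap_end_apply, Algebra.smul_def]
  | add D E _ _ hD hE => exact hD.add hE
  | mul D E _ _ hD hE => exact hD.mul hE

theorem mulOp_mem (p : MvPolynomial σ ℂ) : (fun _ => mulOp p : OpF σ) ∈ DS σ :=
  Algebra.subset_adjoin (Or.inl ⟨p, rfl⟩)

theorem dOp_mem (i : σ) : (fun _ => dOp i : OpF σ) ∈ DS σ :=
  Algebra.subset_adjoin (Or.inr (Or.inl ⟨i, rfl⟩))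

/-- the family `n ↦ n` -/
noncomputable def sF (σ : Type) : OpF σ :=
  fun n : ℕ => (n : ℂ) • (1 : Module.End ℂ (MvPolynomial σ ℂ))

theorem sF_mem : sF σ ∈ DS σ := Algebra.subset_adjoin (Or.inr (Or.inr rfl))

theorem mulOp_natCast (n : ℕ) :
    (mulOp (n : MvPolynomial σ ℂ)) = (n : ℂ) • (1 : Module.End ℂ (MvPolynomial σ ℂ)) := by
  refine LinearMap.ext fun x => ?_
  simp [mulOp, Algebra.smul_def]

theorem mulOp_pow (p : MvPolynomial σ ℂ) (m : ℕ) : mulOp (p ^ m) = mulOp p ^ m := by
  induction m with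
  | zero => refine LinearMap.ext fun x => ?_; simp [mulOp]
  | succ m ih => rw [pow_succ, mulOp_mul, ih, pow_succ]

theorem evalOp_mem (a : Polynomial (MvPolynomial σ ℂ)) :
    (fun n : ℕ => mulOp (a.eval (n : MvPolynomial σ ℂ)) : OpF σ) ∈ DS σ := by
  induction a using Polynomial.induction_on' with
  | add p q hp hq =>
    have h : (fun n : ℕ => mulOp ((p + q).eval (n : MvPolynomial σ ℂ)) : OpF σ) =
        (fun n : ℕ => mulOp (p.eval (n : MvPolynomial σ ℂ)) : OpF σ) +
          (fun n : ℕ => mulOp (q.eval (n : MvPolynomial σ ℂ)) : OpF σ) := by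
      funext n
      refine LinearMap.ext fun x => ?_
      simp [mulOp, add_mul]
    rw [h]
    exact Subalgebra.add_mem _ hp hq
  | monomial m p =>
    have h : (fun n : ℕ => mulOp ((Polynomial.monomial m p).eval (n : MvPolynomial σ ℂ)) : OpF σ) =
        (fun _ : ℕ => mulOp p : OpF σ) * sF σ ^ m := by
      funext n
      rw [Polynomial.eval_monomial, mulOp_mul, mulOp_pow, mulOp_natCast]
      rfl
    rw [h]
    exact Subalgebra.mul_mem _ (mulOp_mem p) (Subalgebra.pow_mem _ sF_mem m)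

theorem dW_mem (w : List σ) : (fun _ => dW w : OpF σ) ∈ DS σ := by
  induction w with
  | nil =>
    have h : (fun _ => dW ([] : List σ) : OpF σ) = 1 := by
      funext n; simp [dW]
    rw [h]
    exact Subalgebra.one_mem _
  | cons i w ih =>
    have h : (fun _ => dW (i :: w) : OpF σ) = (fun _ => dOp i : OpF σ) * (fun _ => dW w : OpF σ) := by
      funext n; simp [dW]
    rw [h]
    exact Subalgebra.mul_mem _ (dOp_mem i) ih

theorem term_mem (aw : Polynomial (MvPolynomial σ ℂ) × List σ) :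
    (fun n : ℕ => mulOp (aw.1.eval (n : MvPolynomial σ ℂ)) * dW aw.2 : OpF σ) ∈ DS σ :=
  Subalgebra.mul_mem _ (evalOp_mem aw.1) (dW_mem aw.2)

theorem ev_mem (P : List (Polynomial (MvPolynomial σ ℂ) × List σ)) : ev P ∈ DS σ := by
  induction P with
  | nil => rw [ev_nil]; exact Subalgebra.zero_mem _
  | cons aw P ih =>
    rw [ev_cons]
    exact Subalgebra.add_mem _ (term_mem aw) ih

/-- MODULE OPS -/
theorem ops : OpsStmt := by
  intro σ
  refine ⟨fun D hD => ?_, fun P => ⟨ev P, ev_mem P, ev_apply P⟩⟩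
  obtain ⟨P, rfl⟩ := rep_of_mem hD
  exact ⟨P, ev_apply P⟩

/-! ### consequences for the Bernstein-Sato polynomial -/

theorem localBS_iff (F : MvPolynomial σ ℂ) (b : Polynomial ℂ) :
    LocalBS F b ↔ ∀ p, LBS F b p := by
  refine forall_congr' fun p => exists_congr fun h => and_congr_right fun _ => ?_
  constructor
  · rintro ⟨P, hP⟩
    exact ⟨ev P, ev_mem P, fun n => by rw [hP, ev_apply]⟩
  · rintro ⟨D, hD, h1⟩
    obtain ⟨P, rfl⟩ := rep_of_mem hD
    exact ⟨P, fun n => by rw [h1, ev_apply]⟩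

theorem lbs_add {F : MvPolynomial σ ℂ} {b c : Polynomial ℂ} {p : σ → ℂ} (hb : LBS F b p)
    (hc : LBS F c p) : LBS F (b + c) p := by
  obtain ⟨h, h0, D, hD, h1⟩ := hb
  obtain ⟨h', h0', D', hD', h1'⟩ := hc
  refine ⟨h * h', by rw [map_mul]; exact mul_ne_zero h0 h0',
    (fun _ => mulOp h') * D + (fun _ => mulOp h) * D',
    Subalgebra.add_mem _ (Subalgebra.mul_mem _ (mulOp_mem h') hD)
      (Subalgebra.mul_mem _ (mulOp_mem h) hD'), fun n => ?_⟩
  have e : ((fun _ => mulOp h') * D + (fun _ => mulOp h) * D' : OpF σ) n (F ^ (n + 1)) =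
      h' * D n (F ^ (n + 1)) + h * D' n (F ^ (n + 1)) := rfl
  rw [e, ← h1, ← h1', Polynomial.eval_add, C_add]
  ring

theorem lbs_mul_left {F : MvPolynomial σ ℂ} {b : Polynomial ℂ} {p : σ → ℂ} (c : Polynomial ℂ)
    (hb : LBS F b p) : LBS F (c * b) p := by
  obtain ⟨h, h0, D, hD, h1⟩ := hb
  refine ⟨h, h0, (fun n : ℕ => mulOp ((c.map C).eval (n : MvPolynomial σ ℂ))) * D,
    Subalgebra.mul_mem _ (evalOp_mem _) hD, fun n => ?_⟩
  have e : ((fun n : ℕ => mulOp ((c.map C).eval (n : MvPolynomial σ ℂ))) * D : OpF σ) n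
      (F ^ (n + 1)) = (c.map C).eval (n : MvPolynomial σ ℂ) * D n (F ^ (n + 1)) := rfl
  have e2 : (c.map C).eval (n : MvPolynomial σ ℂ) = C (c.eval (n : ℂ)) := by
    rw [Polynomial.eval_map, ← map_natCast (C : ℂ →+* MvPolynomial σ ℂ),
      Polynomial.eval₂_at_apply]
  rw [e, e2, ← h1, Polynomial.eval_mul, C_mul]
  ring

theorem lbs_zero (F : MvPolynomial σ ℂ) (p : σ → ℂ) : LBS F 0 p :=
  ⟨1, by simp, 0, Subalgebra.zero_mem _, fun n => by simp⟩

/-- the ideal of polynomials satisfying the functional equation -/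
def bI (F : MvPolynomial σ ℂ) : Ideal (Polynomial ℂ) where
  carrier := {b | ∀ p, LBS F b p}
  zero_mem' := fun p => lbs_zero F p
  add_mem' := fun ha hb p => lbs_add (ha p) (hb p)
  smul_mem' := fun c _ hb p => lbs_mul_left c (hb p)

theorem span_eq (F : MvPolynomial σ ℂ) : Ideal.span {b | LocalBS F b} = bI F := by
  have h : {b | LocalBS F b} = (bI F : Set (Polynomial ℂ)) := by
    ext b
    exact localBS_iff F b
  rw [h, Ideal.span_eq]

theorem bfun_dvd_iff (F : MvPolynomial σ ℂ) (b : Polynomial ℂ) :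
    bfun F ∣ b ↔ ∀ p, LBS F b p := by
  have h : b ∈ Ideal.span {b | LocalBS F b} ↔ ∀ p, LBS F b p := by
    rw [span_eq]
    rfl
  rw [← h, bfun, normalize_dvd_iff]
  conv_rhs => rw [← Ideal.span_singleton_generator (Ideal.span {b | LocalBS F b})]
  rw [Ideal.mem_span_singleton]

/-- MODULE LBF -/
theorem lbf : LbfStmt := fun _ F =>
  ⟨(bfun_dvd_iff F _).1 dvd_rfl, fun b hb => (bfun_dvd_iff F b).2 hb⟩

end Pool.Agent.Helper8_CR.H10
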